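import Pool.Agent.H25.Fish.CountAC

set_option autoImplicit false

/-!
# Fishburn permutations avoiding `3214`, `4132`, `4213` are equinumerous

The three classes are generated by appending a last value. In each of the three generating trees
the allowed sites of a permutation fall into consecutive blocks, and the children of a permutation
depend only on the block sizes and on one or two more numbers. For `3214` and for `4213` the
generating series of the descendants of a node is an explicit product over the blocks of power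
series `Φ_a`, corrected by power series `S_a`; for `4132` the paths of the tree satisfy a functional
equation in one catalytic variable. The `Φ_a` and the `S_a` are the coefficients of its solution
after a rescaling of the catalytic variable.
-/

namespace Pool.Agent.Results.MP_e853da_co.FishburnWilf

open Finset Pool.Agent.R121 Pool.Agent.R121.Fish Pool.Agent.H25.Fish

attribute [local instance 10] Classical.propDecidable

/-- `π` contains the classical pattern `σ`: some subsequence of `π` is order-isomorphic to `σ`. -/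
def Contains {k n : ℕ} (π : Equiv.Perm (Fin n)) (σ : Equiv.Perm (Fin k)) : Prop :=
  ∃ f : Fin k ↪o Fin n, ∀ a b : Fin k, σ a < σ b ↔ π (f a) < π (f b)

/-- `π` is a Fishburn permutation: there are no indices `i` and `j > i + 1` with
`π(j) + 1 = π(i) < π(i + 1)`. -/
def IsFishburn {n : ℕ} (π : Equiv.Perm (Fin n)) : Prop :=
  ¬ ∃ (i j : Fin n) (h : (i : ℕ) + 1 < n), (i : ℕ) + 1 < j ∧
    (π j : ℕ) + 1 = π i ∧ π i < π ⟨(i : ℕ) + 1, h⟩

/-- The set of the Fishburn permutations of size `n` which avoid `σ`. -/
def F (n : ℕ) {k : ℕ} (σ : Equiv.Perm (Fin k)) : Set (Equiv.Perm (Fin n)) :=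
  {π | IsFishburn π ∧ ¬ Contains π σ}

/-- The pattern `3214` (with values `0, …, 3`). -/
def p3214 : Equiv.Perm (Fin 4) := ⟨![2, 1, 0, 3], ![2, 1, 0, 3], by decide, by decide⟩

/-- The pattern `4132` (with values `0, …, 3`). -/
def p4132 : Equiv.Perm (Fin 4) := ⟨![3, 0, 2, 1], ![1, 3, 2, 0], by decide, by decide⟩

/-- The pattern `4213` (with values `0, …, 3`). -/
def p4213 : Equiv.Perm (Fin 4) := ⟨![3, 1, 0, 2], ![2, 1, 3, 0], by decide, by decide⟩

lemma fishburn_iff {n : ℕ} (π : Equiv.Perm (Fin n)) : IsFishburn π ↔ Fsh π := by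
  constructor
  · intro H i j k h1 h2 ⟨h3, h4⟩
    apply H
    have h5 : (i : ℕ) + 1 < n := by
      rw [← h1]
      exact j.2
    have h6 : (⟨(i : ℕ) + 1, h5⟩ : Fin n) = j := Fin.ext h1.symm
    refine ⟨i, k, h5, ?_, h3, ?_⟩
    · rw [← h1]
      exact h2
    · rw [h6, Fin.lt_def]
      exact h4
  · rintro H ⟨i, j, h, h1, h2, h3⟩
    exact H i ⟨(i : ℕ) + 1, h⟩ j rfl h1 ⟨h2, h3⟩

lemma contains_of {n : ℕ} (π : Equiv.Perm (Fin n)) (σ : Equiv.Perm (Fin 4)) (i j k l : Fin n)
    (h1 : i < j) (h2 : j < k) (h3 : k < l)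
    (H : ∀ a b : Fin 4, σ a < σ b → π (![i, j, k, l] a) < π (![i, j, k, l] b)) :
    Contains π σ := by
  have hm : StrictMono ![i, j, k, l] := by
    rw [Fin.strictMono_iff_lt_succ]
    intro a
    fin_cases a
    · exact h1
    · exact h2
    · exact h3
  refine ⟨OrderEmbedding.ofStrictMono _ hm, ?_⟩
  intro a b
  constructor
  · exact H a b
  · intro h
    by_contra h4
    rcases (not_lt.1 h4).lt_or_eq with h5 | h5
    · exact lt_asymm h (H b a h5)
    · have := σ.injective h5
      subst this
      exact lt_irrefl _ h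

lemma contains_to {n : ℕ} (π : Equiv.Perm (Fin n)) (σ : Equiv.Perm (Fin 4)) (h : Contains π σ) :
    ∃ f : Fin 4 → Fin n, StrictMono f ∧ ∀ a b : Fin 4, σ a < σ b → (π (f a) : ℕ) < π (f b) := by
  obtain ⟨f, hf⟩ := h
  exact ⟨f, f.strictMono, fun a b hab => (hf a b).1 hab⟩

lemma av3214_iff {n : ℕ} (π : Equiv.Perm (Fin n)) : ¬ Contains π p3214 ↔ Av3214 π := by
  constructor
  · intro H i j k l h1 h2 h3 ⟨h4, h5, h6⟩
    apply H
    apply contains_of π p3214 i j k l h1 h2 h3
    intro a b hab
    rw [Fin.lt_def]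
    fin_cases a <;> fin_cases b <;>
      first
        | exact absurd hab (by decide)
        | (simp only [Fin.zero_eta, Fin.mk_one, Fin.reduceFinMk, Matrix.cons_val]; omega)
  · intro H h
    obtain ⟨f, hf, hf2⟩ := contains_to π _ h
    exact H (f 0) (f 1) (f 2) (f 3) (hf (by decide)) (hf (by decide)) (hf (by decide))
      ⟨hf2 2 1 (by decide), hf2 1 0 (by decide), hf2 0 3 (by decide)⟩

lemma av4132_iff {n : ℕ} (π : Equiv.Perm (Fin n)) : ¬ Contains π p4132 ↔ Av4132 π := by
  constructor
  · intro H i j k l h1 h2 h3 ⟨h4, h5, h6⟩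
    apply H
    apply contains_of π p4132 i j k l h1 h2 h3
    intro a b hab
    rw [Fin.lt_def]
    fin_cases a <;> fin_cases b <;>
      first
        | exact absurd hab (by decide)
        | (simp only [Fin.zero_eta, Fin.mk_one, Fin.reduceFinMk, Matrix.cons_val]; omega)
  · intro H h
    obtain ⟨f, hf, hf2⟩ := contains_to π _ h
    exact H (f 0) (f 1) (f 2) (f 3) (hf (by decide)) (hf (by decide)) (hf (by decide))
      ⟨hf2 1 3 (by decide), hf2 3 2 (by decide), hf2 2 0 (by decide)⟩

lemma av4213_iff {n : ℕ} (π : Equiv.Perm (Fin n)) : ¬ Contains π p4213 ↔ Av4213 π := by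
  constructor
  · intro H i j k l h1 h2 h3 ⟨h4, h5, h6⟩
    apply H
    apply contains_of π p4213 i j k l h1 h2 h3
    intro a b hab
    rw [Fin.lt_def]
    fin_cases a <;> fin_cases b <;>
      first
        | exact absurd hab (by decide)
        | (simp only [Fin.zero_eta, Fin.mk_one, Fin.reduceFinMk, Matrix.cons_val]; omega)
  · intro H h
    obtain ⟨f, hf, hf2⟩ := contains_to π _ h
    exact H (f 0) (f 1) (f 2) (f 3) (hf (by decide)) (hf (by decide)) (hf (by decide))
      ⟨hf2 2 1 (by decide), hf2 1 3 (by decide), hf2 3 0 (by decide)⟩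

lemma ncard_F (n : ℕ) (σ : Equiv.Perm (Fin 4)) (V : (n : ℕ) → Equiv.Perm (Fin n) → Prop)
    (h : ∀ π : Equiv.Perm (Fin (n + 1)), (IsFishburn π ∧ ¬ Contains π σ) ↔ V (n + 1) π) :
    ((F (n + 1) σ).ncard : ℤ) = cardV V n := by
  have h1 : F (n + 1) σ = ((univ.filter fun π : Equiv.Perm (Fin (n + 1)) => V (n + 1) π :
      Finset (Equiv.Perm (Fin (n + 1)))) : Set (Equiv.Perm (Fin (n + 1)))) := by
    ext π
    simp only [F, Set.mem_setOf_eq, coe_filter, mem_univ, true_and]
    exact h π
  rw [h1, Set.ncard_coe_finset, cardV, card_filter]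
  push_cast
  rfl

/-- **Gil–Weiner**: for every `n`, the numbers of the Fishburn permutations of size `n` which avoid
`3214`, which avoid `4132`, and which avoid `4213` are equal. -/
theorem result (n : ℕ) : (F n p3214).ncard = (F n p4132).ncard ∧
    (F n p4132).ncard = (F n p4213).ncard := by
  cases n with
  | zero =>
    have h : ∀ σ : Equiv.Perm (Fin 4), F 0 σ = Set.univ := by
      intro σ
      ext π
      simp only [F, Set.mem_setOf_eq, Set.mem_univ, iff_true]
      constructor
      · rintro ⟨i, _⟩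
        exact i.elim0
      · rintro ⟨f, _⟩
        exact (f 0).elim0
    rw [h, h, h]
    exact ⟨rfl, rfl⟩
  | succ n =>
    have h1 := ncard_F n p3214 V3214 (fun π => by rw [fishburn_iff, av3214_iff]; rfl)
    have h2 := ncard_F n p4132 V4132 (fun π => by rw [fishburn_iff, av4132_iff]; rfl)
    have h3 := ncard_F n p4213 V4213 (fun π => by rw [fishburn_iff, av4213_iff]; rfl)
    obtain ⟨h4, h5⟩ := count_all n
    rw [h4] at h1
    rw [h5] at h3
    constructor
    · exact_mod_cast h1.trans h2.symm
    · exact_mod_cast h2.trans h3.symm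

end Pool.Agent.Results.MP_e853da_co.FishburnWilf
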